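import Pool.Agent.Helper85.CS.CSBASE

/-!
# Five pieces of `F_3^6`

`0` = the 12 vectors of weight one, `1`, `2` = the 80 vectors supported on the blocks of a
2-(6,3,2) design, resp. on the other 10 triples, `3`, `4` = the 32 vectors of full support
with an even, resp. odd number of coordinates equal to `2`.  The classical caps with 112
elements are the unions of the pieces `1, 3` and `2, 3`.  `bad5` is the table of the triples
of pieces which may contain a zero sum.
-/

set_option autoImplicit false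

namespace Pool.Agent.Helper75.CQ

open Finset
open Pool.Agent.Helper75.CS (Cap NoSum Sys)
open Pool.Agent.Helper85.CS (st mask vchk nchk cchk nosum_of cap_of card_st)

/-- mask of the third pieces -/
def bm5 (a b : Fin 5) : ℕ :=
  (![![1, 2, 4, 16, 8], ![2, 7, 30, 20, 12], ![4, 30, 7, 18, 10], ![16, 20, 18, 8, 7], ![8, 12, 10, 7, 16]] : Fin 5 → Fin 5 → ℕ) a b

/-- the triples of pieces which may contain a zero sum -/
def bad5 (a b c : Fin 5) : Bool := (bm5 a b).testBit c

def P (s : Fin 5) : List ℕ := match s with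
  | 0 => [
  1, 2, 4, 8, 16, 32, 64, 128, 256, 512, 1024, 2048]
  | 1 => [
  7, 11, 21, 26, 28, 38, 41, 44, 49, 50, 70, 74, 84, 104, 112, 133, 137, 152, 164, 176,
  196, 200, 259, 273, 280, 290, 296, 322, 336, 385, 416, 448, 515, 530, 532, 545, 548, 578,
  608, 641, 656, 704, 784, 800, 1029, 1034, 1036, 1057, 1058, 1092, 1120, 1160, 1184, 1281,
  1288, 1344, 1538, 1540, 1664, 1792, 2054, 2057, 2060, 2065, 2066, 2120, 2128, 2180, 2192,
  2306, 2312, 2432, 2561, 2564, 2624, 2816, 3073, 3074, 3136, 3200]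
  | 2 => [
  13, 14, 19, 22, 25, 35, 37, 42, 52, 56, 76, 82, 88, 98, 100, 140, 145, 148, 161, 168,
  208, 224, 265, 266, 274, 289, 304, 328, 352, 392, 400, 517, 518, 529, 546, 560, 580, 592,
  644, 672, 769, 770, 832, 896, 1027, 1030, 1033, 1060, 1064, 1090, 1096, 1153, 1156, 1216,
  1282, 1312, 1408, 1537, 1568, 1600, 2051, 2053, 2058, 2068, 2072, 2114, 2116, 2177, 2184,
  2240, 2305, 2320, 2368, 2562, 2576, 2688, 3076, 3080, 3328, 3584]
  | 3 => [
  63, 252, 378, 441, 630, 693, 819, 1008, 1134, 1197, 1323, 1512, 1575, 1764, 1890, 1953,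
  2142, 2205, 2331, 2520, 2583, 2772, 2898, 2961, 3087, 3276, 3402, 3465, 3654, 3717, 3843,
  4032]
  | 4 => [
  126, 189, 315, 504, 567, 756, 882, 945, 1071, 1260, 1386, 1449, 1638, 1701, 1827, 2016,
  2079, 2268, 2394, 2457, 2646, 2709, 2835, 3024, 3150, 3213, 3339, 3528, 3591, 3780, 3906,
  3969]

def M5 (s : Fin 5) : ℕ := mask (P s)

theorem vP : ∀ s : Fin 5, vchk (P s) = true := by decide +kernel
theorem cP : ∀ s : Fin 5, cchk (P s) (mask (P s)) = true := by decide +kernel
theorem dP : ∀ s : Fin 5, (P s).Nodup := by decide +kernel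
theorem nP : ∀ a b c : Fin 5, bad5 a b c = false → nchk (P a) (P b) (mask (P c)) = true := by
  decide +kernel

/-- sizes of the pieces -/
def sz5 : Fin 5 → ℕ := ![12, 80, 80, 32, 32]

theorem lP : ∀ s : Fin 5, (P s).length = sz5 s := by decide +kernel

/-- the system of the five pieces -/
def S5 : Sys (Fin 5) (Fin 6 → ZMod 3) where
  set s := st (P s)
  bad := bad5
  cap s := cap_of (vP s) (cP s)
  good a b c h := nosum_of (vP a) (vP b) (vP c) (nP a b c h)

theorem card5 (s : Fin 5) : (S5.set s).card = sz5 s :=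
  (card_st (vP s) (dP s)).trans (lP s)

end Pool.Agent.Helper75.CQ
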