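import Pool.Agent.Helper75.CS.Count
import Pool.Agent.Helper75.CS.Growth

/-!
# The walk construction over an arbitrary collection (S0, S1, S2) of sizes `b0, b1, b1`
-/

set_option autoImplicit false

namespace Pool.Agent.Helper75.CQ

open Finset
open Pool.Agent.Helper75.CS (Cap NoSum Sys Adm BadW bad3 bad7 K7 k7_adm k7_good cnt wt7 cnt_le wtW
  zer zer_le uni card_uni cap_uni three_pi IsWalk adm_walk card_word UU UU_lower capNum)

/-- size of the box of a letter -/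
def sz7 (b0 b1 : ℕ) (t : Fin 7) : ℕ := wt7 t * (b0 ^ cnt t * b1 ^ (3 - cnt t))

def c3g (b0 b1 : ℕ) : Fin 3 → ℕ := ![b0, b1, b1]

theorem c7g_eq (b0 b1 : ℕ) : ∀ t : Fin 7, ∑ u ∈ K7 t, ∏ i, c3g b0 b1 (u i) = sz7 b0 b1 t := by
  intro t
  have e1 : (![(1 : Fin 3), 2, 0] : Fin 3 → Fin 3) ≠ ![2, 0, 1] := by decide
  have e2 : (![(0 : Fin 3), 1, 2] : Fin 3 → Fin 3) ∉ ({![1, 2, 0], ![2, 0, 1]} : Finset _) := by
    decide
  have e3 : (![(2 : Fin 3), 1, 0] : Fin 3 → Fin 3) ≠ ![1, 0, 2] := by decide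
  have e4 : (![(0 : Fin 3), 2, 1] : Fin 3 → Fin 3) ∉ ({![2, 1, 0], ![1, 0, 2]} : Finset _) := by
    decide
  have e5 : (![(0 : Fin 3), 1, 0] : Fin 3 → Fin 3) ≠ ![1, 0, 0] := by decide
  have e6 : (![(0 : Fin 3), 0, 1] : Fin 3 → Fin 3) ∉ ({![0, 1, 0], ![1, 0, 0]} : Finset _) := by
    decide
  have e7 : (![(0 : Fin 3), 2, 0] : Fin 3 → Fin 3) ≠ ![2, 0, 0] := by decide
  have e8 : (![(0 : Fin 3), 0, 2] : Fin 3 → Fin 3) ∉ ({![0, 2, 0], ![2, 0, 0]} : Finset _) := by
    decide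
  fin_cases t
  · show ∑ u ∈ ({![1, 1, 1]} : Finset (Fin 3 → Fin 3)), _ = _
    simp [Fin.prod_univ_three, c3g, sz7, wt7, cnt]; ring
  · show ∑ u ∈ ({![2, 2, 2]} : Finset (Fin 3 → Fin 3)), _ = _
    simp [Fin.prod_univ_three, c3g, sz7, wt7, cnt]; ring
  · show ∑ u ∈ ({![0, 1, 2], ![1, 2, 0], ![2, 0, 1]} : Finset (Fin 3 → Fin 3)), _ = _
    rw [Finset.sum_insert e2, Finset.sum_pair e1]
    simp [Fin.prod_univ_three, c3g, sz7, wt7, cnt]; ring
  · show ∑ u ∈ ({![0, 2, 1], ![2, 1, 0], ![1, 0, 2]} : Finset (Fin 3 → Fin 3)), _ = _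
    rw [Finset.sum_insert e4, Finset.sum_pair e3]
    simp [Fin.prod_univ_three, c3g, sz7, wt7, cnt]; ring
  · show ∑ u ∈ ({![0, 0, 1], ![0, 1, 0], ![1, 0, 0]} : Finset (Fin 3 → Fin 3)), _ = _
    rw [Finset.sum_insert e6, Finset.sum_pair e5]
    simp [Fin.prod_univ_three, c3g, sz7, wt7, cnt]; ring
  · show ∑ u ∈ ({![0, 0, 2], ![0, 2, 0], ![2, 0, 0]} : Finset (Fin 3 → Fin 3)), _ = _
    rw [Finset.sum_insert e8, Finset.sum_pair e7]
    simp [Fin.prod_univ_three, c3g, sz7, wt7, cnt]; ring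
  · show ∑ u ∈ ({![0, 0, 0]} : Finset (Fin 3 → Fin 3)), _ = _
    simp [Fin.prod_univ_three, c3g, sz7, wt7, cnt]; ring

section

variable {G : Type} [AddCommGroup G]

/-- the level of the seven letters -/
theorem exists_sys7g (hx3 : ∀ x : G, x + x + x = 0) (b0 b1 : ℕ)
    (hb : ∃ S : Sys (Fin 3) G, (∀ a b c, S.bad a b c = bad3 a b c) ∧
      (S.set 0).card = b0 ∧ (S.set 1).card = b1 ∧ (S.set 2).card = b1) :
    ∃ S : Sys (Fin 7) (Fin 3 → G), (∀ a b c, S.bad a b c = bad7 a b c) ∧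
      ∀ t, (S.set t).card = sz7 b0 b1 t := by
  classical
  obtain ⟨S, hbad, h0, h1, h2⟩ := hb
  have hc3 : ∀ t, (S.set t).card = c3g b0 b1 t := by
    intro t
    fin_cases t
    · simpa [c3g] using h0
    · simpa [c3g] using h1
    · simpa [c3g] using h2
  have hadm7 : ∀ t, Adm S (K7 t) := by
    intro t u hu v hv w hw hbw
    exact k7_adm t u hu v hv w hw fun i => by rw [← hbad]; exact hbw i
  have hgood7 : ∀ a b c, bad7 a b c = false → ∀ u ∈ K7 a, ∀ v ∈ K7 b, ∀ w ∈ K7 c,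
      ¬ BadW S u v w := by
    intro a b c hf u hu v hv w hw hbw
    exact k7_good a b c hf u hu v hv w hw fun i => by rw [← hbad]; exact hbw i
  refine ⟨S.next K7 bad7 hadm7 hgood7, fun a b c => rfl, ?_⟩
  intro t
  show (uni S (K7 t)).card = _
  rw [card_uni hx3 S (K7 t) (hadm7 t), ← c7g_eq b0 b1 t]
  exact Finset.sum_congr rfl fun u _ => Finset.prod_congr rfl fun i _ => hc3 _

/-- size of the box of a word of letters -/
def cszg (b0 b1 : ℕ) {r0 : ℕ} (u : Fin r0 → Fin 7) : ℕ := ∏ i, sz7 b0 b1 (u i)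

theorem cszg_eq (b0 b1 : ℕ) {r0 : ℕ} (u : Fin r0 → Fin 7) :
    cszg b0 b1 u = wtW u * (b0 ^ zer u * b1 ^ (3 * r0 - zer u)) := by
  have h : ∑ i : Fin r0, (3 - cnt (u i)) = 3 * r0 - zer u := by
    have h1 : ∑ i : Fin r0, (3 - cnt (u i)) + zer u = 3 * r0 := by
      unfold zer
      rw [← Finset.sum_add_distrib]
      have : ∀ i : Fin r0, 3 - cnt (u i) + cnt (u i) = 3 := fun i => by
        have := cnt_le (u i)
        omega
      rw [Finset.sum_congr rfl fun i _ => this i]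
      simp [mul_comm]
    omega
  unfold cszg wtW sz7
  rw [Finset.prod_mul_distrib, Finset.prod_mul_distrib, Finset.prod_pow_eq_pow_sum,
    Finset.prod_pow_eq_pow_sum, h]
  rfl

/-- the base quantity of one word of `r0` letters with `K` zeros -/
def BBg (b0 b1 r0 K : ℕ) : ℕ := b0 ^ K * b1 ^ (3 * r0 - K)

theorem cszg_shift (b0 b1 : ℕ) {r0 K : ℕ} (hK : K ≤ 3 * r0) (u : Fin r0 → Fin 7) (hs hd : ℕ)
    (h : zer u + hs = K + hd) :
    cszg b0 b1 u * (b0 ^ hs * b1 ^ hd) = wtW u * BBg b0 b1 r0 K * (b0 ^ hd * b1 ^ hs) := by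
  rw [cszg_eq]
  have hz := zer_le u
  have e1 : b0 ^ zer u * b0 ^ hs = b0 ^ K * b0 ^ hd := by rw [← pow_add, ← pow_add, h]
  have e2 : b1 ^ (3 * r0 - zer u) * b1 ^ hd = b1 ^ (3 * r0 - K) * b1 ^ hs := by
    rw [← pow_add, ← pow_add]
    congr 1
    omega
  calc wtW u * (b0 ^ zer u * b1 ^ (3 * r0 - zer u)) * (b0 ^ hs * b1 ^ hd)
      = wtW u * ((b0 ^ zer u * b0 ^ hs) * (b1 ^ (3 * r0 - zer u) * b1 ^ hd)) := by ring
    _ = wtW u * ((b0 ^ K * b0 ^ hd) * (b1 ^ (3 * r0 - K) * b1 ^ hs)) := by rw [e1, e2]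
    _ = wtW u * BBg b0 b1 r0 K * (b0 ^ hd * b1 ^ hs) := by unfold BBg; ring

/-- the caps given by closed walks -/
theorem cap_walks_g (hx3 : ∀ x : G, x + x + x = 0) (b0 b1 : ℕ)
    (hb : ∃ S : Sys (Fin 3) G, (∀ a b c, S.bad a b c = bad3 a b c) ∧
      (S.set 0).card = b0 ∧ (S.set 1).card = b1 ∧ (S.set 2).card = b1)
    {E Q : Type} [Fintype E] {r0 : ℕ}
    (src dst : E → Q) (word : E → Fin r0 → Fin 7) (R : Q → Q → Q → Prop) (q0 : Q)
    (h1 : ∀ e f g, src e = src f → src f = src g →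
      (∀ i, bad7 (word e i) (word f i) (word g i) = true) → ¬ (e = f ∧ f = g) →
      R (dst e) (dst f) (dst g))
    (h2 : ∀ e f g, R (src e) (src f) (src g) →
      (∀ i, bad7 (word e i) (word f i) (word g i) = true) → R (dst e) (dst f) (dst g))
    (h3 : ¬ R q0 q0 q0) (N : ℕ) :
    ∃ A : Finset (Fin N → Fin r0 → Fin 3 → G), Cap A ∧
      A.card = ∑ w : Fin N → E,
        (open Classical in
          if IsWalk src dst q0 q0 w then ∏ i, cszg b0 b1 (word (w i)) else 0) := by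
  classical
  obtain ⟨S7, hbad, hcard⟩ := exists_sys7g hx3 b0 b1 hb
  let badE : E → E → E → Bool := fun e f g =>
    decide (∀ i, bad7 (word e i) (word f i) (word g i) = true)
  have hgE : ∀ a b c, badE a b c = false → ¬ BadW S7 (word a) (word b) (word c) := by
    intro a b c hf hbw
    have : ¬ ∀ i, bad7 (word a i) (word b i) (word c i) = true := of_decide_eq_false hf
    exact this fun i => by rw [← hbad]; exact hbw i
  let SE : Sys E (Fin r0 → Fin 3 → G) := S7.word word badE hgE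
  have hx : ∀ x : Fin r0 → Fin 3 → G, x + x + x = 0 := three_pi (three_pi hx3)
  let K : Finset (Fin N → E) := Finset.univ.filter (fun w => IsWalk src dst q0 q0 w)
  have hK : ∀ w ∈ K, IsWalk src dst q0 q0 w := fun w hw => (Finset.mem_filter.mp hw).2
  have hadm : Adm SE K := by
    refine adm_walk SE src dst q0 R ?_ ?_ h3 K hK
    · intro e f g he hf hbe hne
      exact h1 e f g he hf (of_decide_eq_true hbe) hne
    · intro e f g hR hbe
      exact h2 e f g hR (of_decide_eq_true hbe)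
  refine ⟨uni SE K, cap_uni SE K hadm, ?_⟩
  rw [card_uni hx SE K hadm]
  have hce : ∀ e, (SE.set e).card = cszg b0 b1 (word e) := by
    intro e
    show ((S7.word word badE hgE).set e).card = _
    rw [card_word]
    exact Finset.prod_congr rfl fun i _ => hcard _
  rw [Finset.sum_filter]
  refine Finset.sum_congr rfl fun w _ => ?_
  split_ifs
  · exact Finset.prod_congr rfl fun i _ => hce _
  · rfl

end

/-- total size of the boxes of the walks -/
noncomputable def TTg (b0 b1 : ℕ) {E Q : Type} [Fintype E] (src dst : E → Q) {r0 : ℕ}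
    (word : E → Fin r0 → Fin 7) (q0 : Q) (N : ℕ) (q : Q) : ℕ :=
  ∑ w : Fin N → E,
    (open Classical in if IsWalk src dst q0 q w then ∏ i, cszg b0 b1 (word (w i)) else 0)

theorem TTg_eq (b0 b1 : ℕ) (hb0 : 0 < b0) (hb1 : 0 < b1) {E Q : Type} [Fintype E]
    [DecidableEq Q] (src dst : E → Q)
    {r0 K0 : ℕ} (hK0 : K0 ≤ 3 * r0) (word : E → Fin r0 → Fin 7) (q0 : Q) (h : Q → ℕ)
    (h0 : h q0 = 0)
    (hz : ∀ e, zer (word e) + h (src e) = K0 + h (dst e)) :
    ∀ N q, TTg b0 b1 src dst word q0 N q * b1 ^ h q =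
      UU src dst (fun e => wtW (word e)) q0 N q * BBg b0 b1 r0 K0 ^ N * b0 ^ h q := by
  obtain ⟨hT0, hT1⟩ := Pool.Agent.Helper86.CS.cswalk E Q inferInstance inferInstance src dst q0
    (fun e => cszg b0 b1 (word e)) (TTg b0 b1 src dst word q0) (fun N q => rfl)
  intro N
  induction N with
  | zero =>
    intro q
    rw [hT0]
    by_cases hq : q = q0
    · subst hq
      simp [UU, h0]
    · simp [UU, hq]
  | succ N ih =>
    intro q
    rw [hT1]
    show (∑ e : E, if dst e = q then TTg b0 b1 src dst word q0 N (src e) *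
        cszg b0 b1 (word e) else 0) *
      b1 ^ h q = (∑ e : E, if dst e = q then
        UU src dst (fun e => wtW (word e)) q0 N (src e) * wtW (word e) else 0) *
        BBg b0 b1 r0 K0 ^ (N + 1) * b0 ^ h q
    rw [Finset.sum_mul, Finset.sum_mul, Finset.sum_mul]
    refine Finset.sum_congr rfl fun e _ => ?_
    split_ifs with he
    · subst he
      have hc := cszg_shift b0 b1 hK0 (word e) (h (src e)) (h (dst e)) (hz e)
      have hi := ih (src e)
      have hpos : 0 < b0 ^ h (src e) * b1 ^ h (src e) :=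
        Nat.mul_pos (pow_pos hb0 _) (pow_pos hb1 _)
      refine Nat.eq_of_mul_eq_mul_right hpos ?_
      calc TTg b0 b1 src dst word q0 N (src e) * cszg b0 b1 (word e) * b1 ^ h (dst e) *
            (b0 ^ h (src e) * b1 ^ h (src e))
          = (TTg b0 b1 src dst word q0 N (src e) * b1 ^ h (src e)) *
              (cszg b0 b1 (word e) * (b0 ^ h (src e) * b1 ^ h (dst e))) := by ring
        _ = (UU src dst (fun e => wtW (word e)) q0 N (src e) * BBg b0 b1 r0 K0 ^ N *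
              b0 ^ h (src e)) *
              (wtW (word e) * BBg b0 b1 r0 K0 * (b0 ^ h (dst e) * b1 ^ h (src e))) := by
            rw [hi, hc]
        _ = UU src dst (fun e => wtW (word e)) q0 N (src e) * wtW (word e) *
              BBg b0 b1 r0 K0 ^ (N + 1) * b0 ^ h (dst e) *
              (b0 ^ h (src e) * b1 ^ h (src e)) := by ring
    · simp

/-- The bound for the growth of `capNum` given by a collection in dimension `d` and a graph
with words of `r0` letters. -/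
theorem growth_g (d : ℕ) (hd : 1 ≤ d) (b0 b1 : ℕ) (hb0 : 0 < b0) (hb1 : 0 < b1)
    (hb : ∃ S : Sys (Fin 3) (Fin d → Fin 6 → ZMod 3), (∀ a b c, S.bad a b c = bad3 a b c) ∧
      (S.set 0).card = b0 ∧ (S.set 1).card = b1 ∧ (S.set 2).card = b1)
    {E Q : Type} [Fintype E] [DecidableEq Q] {r0 K0 : ℕ} (hr0 : 1 ≤ r0)
    (hK0 : K0 ≤ 3 * r0)
    (src dst : E → Q) (word : E → Fin r0 → Fin 7) (R : Q → Q → Q → Prop) (q0 : Q)
    (h1 : ∀ e f g, src e = src f → src f = src g →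
      (∀ i, bad7 (word e i) (word f i) (word g i) = true) → ¬ (e = f ∧ f = g) →
      R (dst e) (dst f) (dst g))
    (h2 : ∀ e f g, R (src e) (src f) (src g) →
      (∀ i, bad7 (word e i) (word f i) (word g i) = true) → R (dst e) (dst f) (dst g))
    (h3 : ¬ R q0 q0 q0) (h : Q → ℕ) (h0 : h q0 = 0)
    (hz : ∀ e, zer (word e) + h (src e) = K0 + h (dst e))
    (v : Q → ℕ) (hv0 : 1 ≤ v q0) (p den n0 K : ℕ) (hden : 1 ≤ den) (hn0 : 1 ≤ n0)
    (hev : ∀ q, p * v q ≤ den * ∑ e : E, if dst e = q then v (src e) * wtW (word e) else 0)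
    (hub : ∀ q, v q ≤ K * UU src dst (fun e => wtW (word e)) q0 n0 q)
    (l : ℝ) (hl : 1 ≤ l) (hL : l ^ (r0 * (3 * (d * 6))) * den < p * BBg b0 b1 r0 K0) :
    ∃ r₁ : ℕ, ∀ r ≥ r₁, l ^ r ≤ (capNum r : ℝ) := by
  have hx3 : ∀ x : Fin d → Fin 6 → ZMod 3, x + x + x = 0 :=
    three_pi (three_pi Pool.Agent.Helper75.CS.z3_three)
  have hcap : ∀ N, UU src dst (fun e => wtW (word e)) q0 N q0 * BBg b0 b1 r0 K0 ^ N ≤
      capNum (N * (r0 * (3 * (d * 6)))) := by
    intro N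
    obtain ⟨A, hA, hcard⟩ := cap_walks_g hx3 b0 b1 hb src dst word R q0 h1 h2 h3 N
    have e := TTg_eq b0 b1 hb0 hb1 src dst hK0 word q0 h h0 hz N q0
    rw [h0] at e
    simp only [pow_zero, mul_one] at e
    rw [← e]
    have hc : TTg b0 b1 src dst word q0 N q0 = A.card := by
      rw [hcard]
      rfl
    rw [hc]
    have := Pool.Agent.Helper53.CS.csnum.1 (Fin N → Fin r0 → Fin 3 → Fin d → Fin 6 → ZMod 3)
      inferInstance inferInstance inferInstance A hA
    have hf : Module.finrank (ZMod 3) (Fin N → Fin r0 → Fin 3 → Fin d → Fin 6 → ZMod 3) =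
        N * (r0 * (3 * (d * 6))) := by
      simp [Module.finrank_pi_fintype]
    rwa [hf] at this
  have hU := UU_lower src dst (fun e => wtW (word e)) q0 v p den n0 K hev hub
  set L : ℝ := l ^ (r0 * (3 * (d * 6))) with hLdef
  have hLpos : 0 < L := pow_pos (by linarith) _
  have hdpos : (0 : ℝ) < den := by exact_mod_cast hden
  have hBpos : (0 : ℝ) < BBg b0 b1 r0 K0 := by
    have : 0 < BBg b0 b1 r0 K0 := Nat.mul_pos (pow_pos hb0 _) (pow_pos hb1 _)
    exact_mod_cast this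
  have hKpos : (0 : ℝ) < K := by
    have : 0 < K := by
      rcases Nat.eq_zero_or_pos K with hK | hK
      · have := hub q0
        rw [hK, zero_mul] at this
        omega
      · exact hK
    exact_mod_cast this
  have hx : 1 < (p * BBg b0 b1 r0 K0 : ℝ) / (L * den) := by
    rw [lt_div_iff₀ (mul_pos hLpos hdpos), one_mul]
    exact hL
  obtain ⟨N, hN⟩ := pow_unbounded_of_one_lt (K * L ^ n0 / (BBg b0 b1 r0 K0 : ℝ) ^ n0) hx
  have hlt : L ^ (n0 + N) <
      ((UU src dst (fun e => wtW (word e)) q0 (n0 + N) q0 * BBg b0 b1 r0 K0 ^ (n0 + N) : ℕ) :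
        ℝ) := by
    have hv1 : (p : ℝ) ^ N ≤ K * (den : ℝ) ^ N *
        (UU src dst (fun e => wtW (word e)) q0 (n0 + N) q0 : ℝ) := by
      have a := hU N q0
      have b : p ^ N ≤ K * den ^ N * UU src dst (fun e => wtW (word e)) q0 (n0 + N) q0 :=
        le_trans (by simpa using Nat.mul_le_mul_right (p ^ N) hv0) a
      exact_mod_cast b
    rw [div_lt_iff₀ (pow_pos hBpos _), div_pow, div_mul_eq_mul_div,
      lt_div_iff₀ (pow_pos (mul_pos hLpos hdpos) _)] at hN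
    push_cast
    have c1 : (K * (den : ℝ) ^ N) * L ^ (n0 + N) <
        (K * (den : ℝ) ^ N) * ((UU src dst (fun e => wtW (word e)) q0 (n0 + N) q0 : ℝ) *
          (BBg b0 b1 r0 K0 : ℝ) ^ (n0 + N)) := by
      calc (K * (den : ℝ) ^ N) * L ^ (n0 + N) = K * L ^ n0 * (L * den) ^ N := by
            rw [mul_pow, pow_add]; ring
        _ < (p * BBg b0 b1 r0 K0 : ℝ) ^ N * (BBg b0 b1 r0 K0 : ℝ) ^ n0 := hN
        _ = (p : ℝ) ^ N * (BBg b0 b1 r0 K0 : ℝ) ^ (n0 + N) := by rw [mul_pow, pow_add]; ring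
        _ ≤ (K * (den : ℝ) ^ N * (UU src dst (fun e => wtW (word e)) q0 (n0 + N) q0 : ℝ)) *
            (BBg b0 b1 r0 K0 : ℝ) ^ (n0 + N) :=
          mul_le_mul_of_nonneg_right hv1 (pow_nonneg hBpos.le _)
        _ = (K * (den : ℝ) ^ N) * ((UU src dst (fun e => wtW (word e)) q0 (n0 + N) q0 : ℝ) *
          (BBg b0 b1 r0 K0 : ℝ) ^ (n0 + N)) := by ring
    exact lt_of_mul_lt_mul_left c1 (mul_nonneg hKpos.le (pow_nonneg hdpos.le _))
  have hD : 1 ≤ (n0 + N) * (r0 * (3 * (d * 6))) :=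
    Nat.mul_pos (by omega) (Nat.mul_pos (by omega) (by omega))
  refine Pool.Agent.Helper13.CS.csgrow capNum ((n0 + N) * (r0 * (3 * (d * 6))))
    (UU src dst (fun e => wtW (word e)) q0 (n0 + N) q0 * BBg b0 b1 r0 K0 ^ (n0 + N)) l hD hl
    (fun r s hrs => Pool.Agent.Helper53.CS.csnum.2.1 r s hrs) ?_ ?_
  · intro k
    exact le_trans (Nat.pow_le_pow_left (hcap (n0 + N)) k)
      (Pool.Agent.Helper53.CS.csnum.2.2.1 _ k)
  · have : l ^ ((n0 + N) * (r0 * (3 * (d * 6)))) = L ^ (n0 + N) := by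
      rw [hLdef, ← pow_mul, mul_comm]
    rw [this]
    exact hlt

end Pool.Agent.Helper75.CQ
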