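import Pool.Agent.Helper75.CQ.Sys3
import Pool.Agent.Helper75.CQ.Gen

/-!
# Graphs given by bit tables

All tables are digits of natural numbers.  `SRC, DST, HT` have digits of 8 bits, `WORD` has
digits of 3 bits (letter `i` of edge `e` at place `e * r0 + i`), `V` digits of 32 bits, `RT`
digits of `nq` bits (place `a * nq + b`, the set of the `c` with (a,b,c) in the relation),
`LM, LT, SS, DS, RS, RN` digits of `m` bits, sets of edges.
-/

set_option autoImplicit false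

namespace Pool.Agent.Helper75.CQ

open Finset
open Pool.Agent.Helper75.CS (Sys bad3 bad7 cnt wt7 wtW zer UU capNum)

/-- digit number `i` of `N` in base `2 ^ b` -/
def dig (b N i : ℕ) : ℕ := (N >>> (b * i)) % 2 ^ b

def allN : ℕ → (ℕ → Bool) → Bool
  | 0, _ => true
  | n + 1, p => p n && allN n p

theorem allN_spec : ∀ (n : ℕ) (p : ℕ → Bool), allN n p = true → ∀ k < n, p k = true
  | 0, _, _, k, hk => absurd hk (Nat.not_lt_zero k)
  | n + 1, p, h, k, hk => by
    simp only [allN, Bool.and_eq_true] at h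
    rcases Nat.lt_succ_iff_lt_or_eq.mp hk with h1 | h1
    · exact allN_spec n p h.2 k h1
    · rw [h1]; exact h.1

def sumN : ℕ → (ℕ → ℕ) → ℕ
  | 0, _ => 0
  | n + 1, f => sumN n f + f n

theorem sumN_eq (n : ℕ) (f : ℕ → ℕ) : sumN n f = ∑ i : Fin n, f i.val := by
  rw [Fin.sum_univ_eq_sum_range (fun i => f i) n]
  induction n with
  | zero => rfl
  | succ n ih => rw [Finset.sum_range_succ, ← ih]; rfl

def prodN : ℕ → (ℕ → ℕ) → ℕ
  | 0, _ => 1
  | n + 1, f => prodN n f * f n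

theorem prodN_eq (n : ℕ) (f : ℕ → ℕ) : prodN n f = ∏ i : Fin n, f i.val := by
  rw [Fin.prod_univ_eq_prod_range (fun i => f i) n]
  induction n with
  | zero => rfl
  | succ n ih => rw [Finset.prod_range_succ, ← ih]; rfl

/-- the data of a graph -/
structure GD where
  r0 : ℕ
  K0 : ℕ
  m : ℕ
  nq : ℕ
  SRC : ℕ
  DST : ℕ
  HT : ℕ
  WORD : ℕ
  V : ℕ
  RT : ℕ
  LM : ℕ
  LT : ℕ
  SS : ℕ
  DS : ℕ
  RS : ℕ
  RN : ℕ
  p : ℕ
  den : ℕ
  n0 : ℕ
  K : ℕ

namespace GD

variable (D : GD)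

def src (e : ℕ) : ℕ := dig 8 D.SRC e
def dst (e : ℕ) : ℕ := dig 8 D.DST e
def ht (q : ℕ) : ℕ := dig 8 D.HT q
def lt (e i : ℕ) : Fin 7 := ⟨dig 3 D.WORD (e * D.r0 + i) % 7, Nat.mod_lt _ (by norm_num)⟩
def v (q : ℕ) : ℕ := if q < D.nq then dig 32 D.V q else 0
def R (a b c : ℕ) : Bool := (dig D.nq D.RT (a * D.nq + b)).testBit c
/-- set of the edges with letter `x` at place `i` -/
def lm (i x : ℕ) : ℕ := dig D.m D.LM (i * 7 + x)
/-- set of the edges whose letter at place `i` is bad with `x`, `y` -/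
def lb (i x y : ℕ) : ℕ := dig D.m D.LT ((i * 7 + x) * 7 + y)
def ss (s : ℕ) : ℕ := dig D.m D.SS s
def ds (s : ℕ) : ℕ := dig D.m D.DS s
def rs (s t : ℕ) : ℕ := dig D.m D.RS (s * D.nq + t)
def rn (s t : ℕ) : ℕ := dig D.m D.RN (s * D.nq + t)

/-- the edges bad with `e`, `f` in the letters `0, .., k - 1`, cut down from `X` -/
def cut (e f : ℕ) : ℕ → ℕ → ℕ
  | 0, X => X
  | k + 1, X => cut e f k X &&& D.lb k (D.lt e k).val (D.lt f k).val

def wt (e : ℕ) : ℕ := prodN D.r0 fun i => wt7 (D.lt e i)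
def ze (e : ℕ) : ℕ := sumN D.r0 fun i => cnt (D.lt e i)

/-- number of walks from `0` -/
def un : ℕ → ℕ → ℕ
  | 0, q => if q = 0 then 1 else 0
  | n + 1, q => sumN D.m fun e => if D.dst e = q then un n (D.src e) * D.wt e else 0

def c1 : Bool := allN D.m fun e => D.src e < D.nq && (D.dst e < D.nq &&
  ((D.ss (D.src e)).testBit e && ((D.ds (D.dst e)).testBit e &&
    (D.ze e + D.ht (D.src e) == D.K0 + D.ht (D.dst e) &&
      allN D.r0 fun i => (D.lm i (D.lt e i).val).testBit e))))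

def c2 : Bool := allN D.r0 fun i => allN 7 fun x => allN 7 fun y => allN 7 fun z =>
  !(bad7 ⟨x % 7, Nat.mod_lt _ (by norm_num)⟩ ⟨y % 7, Nat.mod_lt _ (by norm_num)⟩
    ⟨z % 7, Nat.mod_lt _ (by norm_num)⟩) || (D.lm i z &&& D.lb i x y == D.lm i z)

def c3 : Bool := allN D.nq fun a => allN D.nq fun b => allN D.nq fun c =>
  if D.R a b c then D.ss c &&& D.rs a b == D.ss c else D.ds c &&& D.rn a b == D.ds c

def c4 : Bool := allN D.m fun e => allN D.m fun f =>
  D.cut e f D.r0 (D.rs (D.src e) (D.src f) &&& D.rn (D.dst e) (D.dst f)) == 0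

def c5 : Bool := allN D.m fun e => allN D.m fun f =>
  if D.src e = D.src f then
    if e = f then
      D.cut e f D.r0 (D.ss (D.src e) &&& D.rn (D.dst e) (D.dst f)) ||| 1 <<< e == 1 <<< e
    else D.cut e f D.r0 (D.ss (D.src e) &&& D.rn (D.dst e) (D.dst f)) == 0
  else true

def c6 : Bool := allN D.nq fun q =>
  Nat.ble (D.p * D.v q) (D.den * sumN D.m fun e => if D.dst e = q then D.v (D.src e) * D.wt e else 0) &&
    Nat.ble (D.v q) (D.K * D.un D.n0 q)

def c7 : Bool := !(D.R 0 0 0) && (D.ht 0 == 0 && (Nat.ble 1 (D.v 0) && (Nat.ble 1 D.den &&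
  (Nat.ble 1 D.n0 && (Nat.ble 1 D.r0 && Nat.ble D.K0 (3 * D.r0))))))

def ok : Bool := D.c1 && (D.c2 && (D.c3 && (D.c4 && (D.c5 && (D.c6 && D.c7)))))

theorem sub_bit {A B g : ℕ} (h : (A &&& B == A) = true) (hg : A.testBit g = true) :
    B.testBit g = true := by
  have h1 : A &&& B = A := beq_iff_eq.mp h
  have h2 : (A &&& B).testBit g = true := by rw [h1]; exact hg
  rw [Nat.testBit_land, Bool.and_eq_true] at h2
  exact h2.2

theorem cut_bit (e f g : ℕ) : ∀ (k X : ℕ), X.testBit g = true →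
    (∀ i < k, (D.lb i (D.lt e i).val (D.lt f i).val).testBit g = true) →
    (D.cut e f k X).testBit g = true
  | 0, X, hX, _ => hX
  | k + 1, X, hX, h => by
    rw [cut, Nat.testBit_land, Bool.and_eq_true]
    exact ⟨cut_bit e f g k X hX fun i hi => h i (Nat.lt_succ_of_lt hi), h k (Nat.lt_succ_self k)⟩

theorem c1_spec (h : D.c1 = true) (e : ℕ) (he : e < D.m) :
    D.src e < D.nq ∧ D.dst e < D.nq ∧ (D.ss (D.src e)).testBit e = true ∧
      (D.ds (D.dst e)).testBit e = true ∧ D.ze e + D.ht (D.src e) = D.K0 + D.ht (D.dst e) ∧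
        ∀ i < D.r0, (D.lm i (D.lt e i).val).testBit e = true := by
  have h1 := allN_spec _ _ h e he
  simp only [Bool.and_eq_true, decide_eq_true_eq, beq_iff_eq] at h1
  obtain ⟨a, b, c, d, f, g⟩ := h1
  exact ⟨a, b, c, d, f, fun i hi => allN_spec _ _ g i hi⟩

theorem mem_lb (h1 : D.c1 = true) (h2 : D.c2 = true) (g i : ℕ) (hg : g < D.m) (hi : i < D.r0)
    (x y : Fin 7) (hb : bad7 x y (D.lt g i) = true) :
    (D.lb i x.val y.val).testBit g = true := by
  have a1 := (D.c1_spec h1 g hg).2.2.2.2.2 i hi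
  have a2 := allN_spec _ _ (allN_spec _ _ (allN_spec _ _ (allN_spec _ _ h2 i hi) x.val x.isLt)
    y.val y.isLt) (D.lt g i).val (D.lt g i).isLt
  have ex : (⟨x.val % 7, Nat.mod_lt _ (by norm_num)⟩ : Fin 7) = x :=
    Fin.ext (Nat.mod_eq_of_lt x.isLt)
  have ey : (⟨y.val % 7, Nat.mod_lt _ (by norm_num)⟩ : Fin 7) = y :=
    Fin.ext (Nat.mod_eq_of_lt y.isLt)
  have ez : (⟨(D.lt g i).val % 7, Nat.mod_lt _ (by norm_num)⟩ : Fin 7) = D.lt g i :=
    Fin.ext (Nat.mod_eq_of_lt (D.lt g i).isLt)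
  rw [ex, ey, ez, hb] at a2
  simp only [Bool.not_true, Bool.false_or] at a2
  exact sub_bit a2 a1

theorem mem_rs (h1 : D.c1 = true) (h3 : D.c3 = true) (s t g : ℕ) (hs : s < D.nq) (ht : t < D.nq)
    (hg : g < D.m) (hR : D.R s t (D.src g) = true) : (D.rs s t).testBit g = true := by
  obtain ⟨b1, _, b3, _⟩ := D.c1_spec h1 g hg
  have a := allN_spec _ _ (allN_spec _ _ (allN_spec _ _ h3 s hs) t ht) (D.src g) b1
  simp only [hR, if_true] at a
  exact sub_bit a b3

theorem mem_rn (h1 : D.c1 = true) (h3 : D.c3 = true) (s t g : ℕ) (hs : s < D.nq) (ht : t < D.nq)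
    (hg : g < D.m) (hR : ¬ D.R s t (D.dst g) = true) : (D.rn s t).testBit g = true := by
  obtain ⟨_, b2, _, b4, _⟩ := D.c1_spec h1 g hg
  have a := allN_spec _ _ (allN_spec _ _ (allN_spec _ _ h3 s hs) t ht) (D.dst g) b2
  simp only [hR] at a
  exact sub_bit a b4

theorem un_eq : ∀ n q, D.un n q = UU (fun e : Fin D.m => D.src e.val)
    (fun e : Fin D.m => D.dst e.val) (fun e : Fin D.m => D.wt e.val) 0 n q
  | 0, q => rfl
  | n + 1, q => by
    rw [un, sumN_eq]
    show _ = ∑ e : Fin D.m, if D.dst e.val = q then UU (fun e : Fin D.m => D.src e.val)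
      (fun e : Fin D.m => D.dst e.val) (fun e : Fin D.m => D.wt e.val) 0 n (D.src e.val) *
        D.wt e.val else 0
    refine Finset.sum_congr rfl fun e _ => ?_
    rw [un_eq n]

theorem growth (hok : D.ok = true) (d : ℕ) (hd : 1 ≤ d) (b0 b1 : ℕ) (hb0 : 0 < b0)
    (hb1 : 0 < b1)
    (hb : ∃ S : Sys (Fin 3) (Fin d → Fin 6 → ZMod 3), (∀ a b c, S.bad a b c = bad3 a b c) ∧
      (S.set 0).card = b0 ∧ (S.set 1).card = b1 ∧ (S.set 2).card = b1)
    (l : ℝ) (hl : 1 ≤ l)
    (hL : l ^ (D.r0 * (3 * (d * 6))) * D.den < D.p * BBg b0 b1 D.r0 D.K0) :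
    ∃ r₁ : ℕ, ∀ r ≥ r₁, l ^ r ≤ (capNum r : ℝ) := by
  simp only [ok, Bool.and_eq_true] at hok
  obtain ⟨h1, h2, h3, h4, h5, h6, h7⟩ := hok
  simp only [c7, Bool.and_eq_true, Bool.not_eq_true', beq_iff_eq, Nat.ble_eq] at h7
  obtain ⟨r000, ht0, hv0, hden, hn0, hr0, hK0⟩ := h7
  have hw : ∀ e : Fin D.m, wtW (fun i : Fin D.r0 => D.lt e.val i.val) = D.wt e.val := by
    intro e
    unfold wtW wt
    rw [prodN_eq]
  have hwf : (fun e : Fin D.m => wtW (fun i : Fin D.r0 => D.lt e.val i.val)) =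
      (fun e : Fin D.m => D.wt e.val) := funext hw
  refine growth_g (E := Fin D.m) (Q := ℕ) (r0 := D.r0) (K0 := D.K0) d hd b0 b1 hb0 hb1 hb hr0 hK0
    (fun e => D.src e.val) (fun e => D.dst e.val) (fun e i => D.lt e.val i.val)
    (fun a b c => a < D.nq ∧ b < D.nq ∧ D.R a b c = true) 0 ?_ ?_ ?_ D.ht ht0 ?_ D.v hv0
    D.p D.den D.n0 D.K hden hn0 ?_ ?_ l hl hL
  · intro e f g hef hfg hbad hne
    obtain ⟨be1, be2, be3, _⟩ := D.c1_spec h1 e.val e.isLt
    obtain ⟨bf1, bf2, _⟩ := D.c1_spec h1 f.val f.isLt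
    obtain ⟨_, _, bg3, _⟩ := D.c1_spec h1 g.val g.isLt
    refine ⟨be2, bf2, ?_⟩
    by_contra hR
    have m1 : (D.ss (D.src e.val)).testBit g.val = true := by
      have : D.src e.val = D.src g.val := hef.trans hfg
      rw [this]; exact bg3
    have m2 := D.mem_rn h1 h3 _ _ g.val be2 bf2 g.isLt hR
    have m3 : (D.cut e.val f.val D.r0
        (D.ss (D.src e.val) &&& D.rn (D.dst e.val) (D.dst f.val))).testBit g.val = true := by
      refine D.cut_bit _ _ _ _ _ ?_ ?_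
      · rw [Nat.testBit_land, m1, m2]; rfl
      · intro i hi
        exact D.mem_lb h1 h2 g.val i g.isLt hi _ _ (hbad ⟨i, hi⟩)
    have a := allN_spec _ _ (allN_spec _ _ h5 e.val e.isLt) f.val f.isLt
    rw [if_pos (show D.src e.val = D.src f.val from hef)] at a
    by_cases hef2 : e.val = f.val
    · rw [if_pos hef2] at a
      have a1 := beq_iff_eq.mp a
      have a2 : (D.cut e.val f.val D.r0 (D.ss (D.src e.val) &&& D.rn (D.dst e.val)
          (D.dst f.val)) ||| 1 <<< e.val).testBit g.val = true := by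
        rw [Nat.testBit_lor, m3]; rfl
      rw [a1, Nat.one_shiftLeft, Nat.testBit_two_pow, decide_eq_true_eq] at a2
      exact hne ⟨Fin.ext hef2, Fin.ext (hef2.symm.trans a2)⟩
    · rw [if_neg hef2] at a
      rw [beq_iff_eq.mp a] at m3
      simp at m3
  · rintro e f g ⟨bs, bt, hR⟩ hbad
    obtain ⟨_, be2, _⟩ := D.c1_spec h1 e.val e.isLt
    obtain ⟨_, bf2, _⟩ := D.c1_spec h1 f.val f.isLt
    refine ⟨be2, bf2, ?_⟩
    by_contra hR'
    have m1 := D.mem_rs h1 h3 _ _ g.val bs bt g.isLt hR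
    have m2 := D.mem_rn h1 h3 _ _ g.val be2 bf2 g.isLt hR'
    have m3 : (D.cut e.val f.val D.r0 (D.rs (D.src e.val) (D.src f.val) &&&
        D.rn (D.dst e.val) (D.dst f.val))).testBit g.val = true := by
      refine D.cut_bit _ _ _ _ _ ?_ ?_
      · rw [Nat.testBit_land, m1, m2]; rfl
      · intro i hi
        exact D.mem_lb h1 h2 g.val i g.isLt hi _ _ (hbad ⟨i, hi⟩)
    have a := allN_spec _ _ (allN_spec _ _ h4 e.val e.isLt) f.val f.isLt
    rw [beq_iff_eq.mp a] at m3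
    simp at m3
  · rintro ⟨-, -, hR⟩
    rw [hR] at r000
    exact absurd r000 (by decide)
  · intro e
    obtain ⟨_, _, _, _, b5, _⟩ := D.c1_spec h1 e.val e.isLt
    have : zer (fun i : Fin D.r0 => D.lt e.val i.val) = D.ze e.val := by
      unfold zer ze
      rw [sumN_eq]
    rw [this]
    exact b5
  · intro q
    by_cases hq : q < D.nq
    · have a := allN_spec _ _ h6 q hq
      simp only [Bool.and_eq_true, Nat.ble_eq] at a
      have a1 := a.1
      rw [sumN_eq] at a1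
      refine le_trans a1 (le_of_eq ?_)
      congr 1
      refine Finset.sum_congr rfl fun e _ => ?_
      rw [hw e]
    · have : D.v q = 0 := by unfold v; rw [if_neg hq]
      rw [this, mul_zero]
      exact Nat.zero_le _
  · intro q
    by_cases hq : q < D.nq
    · have a := allN_spec _ _ h6 q hq
      simp only [Bool.and_eq_true, Nat.ble_eq] at a
      rw [hwf, ← D.un_eq]
      exact a.2
    · have : D.v q = 0 := by unfold v; rw [if_neg hq]
      rw [this]
      exact Nat.zero_le _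

end GD

end Pool.Agent.Helper75.CQ
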