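import Pool.Agent.Helper75.CQ.W7
import Pool.Agent.Helper75.CQ.G94

/-!
# The rate given by words of length 7 and the graph with 66 edges
-/

set_option autoImplicit false

namespace Pool.Agent.Helper75.CQ.Rate7

open Pool.Agent.Helper75.CS (capNum)

theorem num : 22224 ^ 378 * G94.D.den < G94.D.p * BBg W7.b0 (112 ^ 7) 3 4 * 10000 ^ 378 := by
  decide +kernel

theorem num' : (22224 / 10000 : ℝ) ^ (G94.D.r0 * (3 * (7 * 6))) * G94.D.den <
    G94.D.p * BBg W7.b0 (112 ^ 7) G94.D.r0 G94.D.K0 := by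
  show (22224 / 10000 : ℝ) ^ 378 * G94.D.den < G94.D.p * BBg W7.b0 (112 ^ 7) 3 4
  rw [div_pow, div_mul_eq_mul_div, div_lt_iff₀ (by positivity)]
  exact_mod_cast num

theorem rate : ∃ r₁ : ℕ, ∀ r ≥ r₁, (22224 / 10000 : ℝ) ^ r ≤ (capNum r : ℝ) :=
  G94.D.growth G94.ok 7 (by norm_num) W7.b0 (112 ^ 7) (by unfold W7.b0; norm_num) (by norm_num)
    (exists_sys3 7 W7.T W7.b0 W7.ok) _ (by norm_num) num'

end Pool.Agent.Helper75.CQ.Rate7
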