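import Pool.Agent.Helper75.CQ.Tries

/-!
# The collection (S0, S1, S2) of words of length `n`

`S1` = all words over the pieces `1, 3`, `S2` = all words over `2, 3`, `S0` given by a trie.
-/

set_option autoImplicit false

namespace Pool.Agent.Helper75.CQ

open Finset
open Pool.Agent.Helper75.CS (Cap NoSum Sys Adm BadW bad3 uni card_uni three_pi z3_three)

/-- all words over `1, 3` -/
def f1 : ℕ → Tr
  | 0 => .leaf
  | n + 1 => .node .nil (f1 n) .nil (f1 n) .nil

/-- all words over `2, 3` -/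
def f2 : ℕ → Tr
  | 0 => .leaf
  | n + 1 => .node .nil .nil (f2 n) (f2 n) .nil

/-- the three tries -/
def tr3 (n : ℕ) (T : Tr) : Fin 3 → Tr := ![T, f1 n, f2 n]

/-- all checks of the trie of `S0` -/
def okT (n : ℕ) (T : Tr) (b0 : ℕ) : Bool :=
  Tr.chkCap n T && (Tr.chkCap n (f1 n) && (Tr.chkCap n (f2 n) && (Tr.chk n T T (f1 n) &&
    (Tr.chk n T T (f2 n) && (Tr.chk n T (f1 n) (f2 n) && (Tr.size n T == b0 &&
      (Tr.size n (f1 n) == 112 ^ n && Tr.size n (f2 n) == 112 ^ n)))))))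

theorem exists_sys3 (n : ℕ) (T : Tr) (b0 : ℕ) (h : okT n T b0 = true) :
    ∃ S : Sys (Fin 3) (Fin n → Fin 6 → ZMod 3), (∀ a b c, S.bad a b c = bad3 a b c) ∧
      (S.set 0).card = b0 ∧ (S.set 1).card = 112 ^ n ∧ (S.set 2).card = 112 ^ n := by
  classical
  simp only [okT, Bool.and_eq_true, beq_iff_eq] at h
  obtain ⟨c0, c1, c2, k1, k2, k3, z0, z1, z2⟩ := h
  have n1 := Tr.nb_all k1
  have n2 := Tr.nb_all k2
  have n3 := Tr.nb_all k3
  have hadm : ∀ t, Adm S5 (Tr.KK n (tr3 n T t)) := by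
    intro t u hu v hv w hw hbw
    rw [Tr.mem_KK] at hu hv hw
    have hc : Tr.chkCap n (tr3 n T t) = true := by
      fin_cases t
      · exact c0
      · exact c1
      · exact c2
    exact Tr.chkCap_sound n _ hc u v w hu hv hw hbw
  have hnb : ∀ a b c : Fin 3, bad3 a b c = false →
      Tr.NB n (tr3 n T a) (tr3 n T b) (tr3 n T c) := by
    intro a b c hf
    fin_cases a <;> fin_cases b <;> fin_cases c <;>
      first
        | exact absurd hf (by decide)
        | (simp only [tr3]; simp; tauto)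
  have hgood : ∀ a b c, bad3 a b c = false → ∀ u ∈ Tr.KK n (tr3 n T a),
      ∀ v ∈ Tr.KK n (tr3 n T b), ∀ w ∈ Tr.KK n (tr3 n T c), ¬ BadW S5 u v w := by
    intro a b c hf u hu v hv w hw hbw
    rw [Tr.mem_KK] at hu hv hw
    exact hnb a b c hf u v w hu hv hw hbw
  have hx3 : ∀ x : Fin 6 → ZMod 3, x + x + x = 0 := three_pi z3_three
  have hcard : ∀ t, ((S5.next (fun t => Tr.KK n (tr3 n T t)) bad3 hadm hgood).set t).card =
      Tr.size n (tr3 n T t) := by
    intro t
    show (uni S5 (Tr.KK n (tr3 n T t))).card = _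
    rw [card_uni hx3 S5 _ (hadm t), ← Tr.sum_KK]
    exact Finset.sum_congr rfl fun u _ => Finset.prod_congr rfl fun i _ => card5 _
  refine ⟨S5.next (fun t => Tr.KK n (tr3 n T t)) bad3 hadm hgood, fun a b c => rfl, ?_, ?_, ?_⟩
  · rw [hcard]; exact z0
  · rw [hcard]; exact z1
  · rw [hcard]; exact z2

end Pool.Agent.Helper75.CQ
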