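import Pool.Agent.Helper75.CQ.Base5
import Pool.Agent.Helper75.CS.Sizes

/-!
# Sets of words of pieces given by tries, and their checks
-/

set_option autoImplicit false

namespace Pool.Agent.Helper75.CQ

open Finset
open Pool.Agent.Helper75.CS (Cap NoSum Sys Adm BadW bad3 uni card_uni three_pi)

/-- tries over the five pieces -/
inductive Tr
  | nil
  | leaf
  | node (a b c d e : Tr)

namespace Tr

def isLeaf : Tr → Bool
  | leaf => true
  | _ => false

def child : Tr → Fin 5 → Tr
  | node a _ _ _ _, 0 => a
  | node _ b _ _ _, 1 => b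
  | node _ _ c _ _, 2 => c
  | node _ _ _ d _, 3 => d
  | node _ _ _ _ e, 4 => e
  | _, _ => nil

/-- the words of length `n` in a trie -/
def mem : (n : ℕ) → Tr → (Fin n → Fin 5) → Bool
  | 0, t, _ => t.isLeaf
  | n + 1, t, u => mem n (child t (u 0)) (fun i => u i.succ)

/-- weighted number of words of length `n` -/
def size : ℕ → Tr → ℕ
  | 0, t => if t.isLeaf then 1 else 0
  | n + 1, t => match t with
    | node a b c d e => 12 * size n a + 80 * size n b + 80 * size n c + 32 * size n d +
        32 * size n e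
    | _ => 0

/-- there is no triple of words with all columns bad -/
def chk : ℕ → Tr → Tr → Tr → Bool
  | 0, s, t, u => !(s.isLeaf && t.isLeaf && u.isLeaf)
  | n + 1, s, t, u => match s with
    | node s0 s1 s2 s3 s4 => match t with
      | node t0 t1 t2 t3 t4 => match u with
        | node u0 u1 u2 u3 u4 =>
          chk n s0 t0 u0 && (chk n s1 t1 u1 && (chk n s2 t2 u2 && (chk n s3 t3 u3 && (chk n s4 t4 u4 &&
          (chk n s0 t1 u1 && (chk n s1 t0 u1 && (chk n s1 t1 u0 &&
          (chk n s0 t2 u2 && (chk n s2 t0 u2 && (chk n s2 t2 u0 &&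
          (chk n s0 t3 u4 && (chk n s0 t4 u3 && (chk n s3 t0 u4 && (chk n s4 t0 u3 &&
          (chk n s3 t4 u0 && (chk n s4 t3 u0 &&
          (chk n s1 t1 u2 && (chk n s1 t2 u1 && (chk n s2 t1 u1 &&
          (chk n s1 t2 u2 && (chk n s2 t1 u2 && (chk n s2 t2 u1 &&
          (chk n s1 t2 u3 && (chk n s2 t1 u3 && (chk n s1 t3 u2 && (chk n s2 t3 u1 &&
          (chk n s3 t1 u2 && (chk n s3 t2 u1 &&
          (chk n s1 t2 u4 && (chk n s2 t1 u4 && (chk n s1 t4 u2 && (chk n s2 t4 u1 &&
          (chk n s4 t1 u2 && (chk n s4 t2 u1 &&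
          (chk n s1 t3 u4 && (chk n s3 t1 u4 && (chk n s1 t4 u3 && (chk n s3 t4 u1 &&
          (chk n s4 t1 u3 && (chk n s4 t3 u1 &&
          (chk n s2 t3 u4 && (chk n s3 t2 u4 && (chk n s2 t4 u3 && (chk n s3 t4 u2 &&
          (chk n s4 t2 u3 && chk n s4 t3 u2)))))))))))))))))))))))))))))))))))))))))))))
        | _ => true
      | _ => true
    | _ => true

theorem chk_nil1 (n : ℕ) (t u : Tr) : chk n nil t u = true := by
  cases n <;> simp [chk, isLeaf]

theorem chk_nil2 (n : ℕ) (s u : Tr) : chk n s nil u = true := by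
  cases n <;> cases s <;> simp [chk, isLeaf]

theorem chk_nil3 (n : ℕ) (s t : Tr) : chk n s t nil = true := by
  cases n <;> cases s <;> cases t <;> simp [chk, isLeaf]

theorem child_nil (i : Fin 5) : child nil i = nil := by
  fin_cases i <;> rfl

theorem child_leaf (i : Fin 5) : child leaf i = nil := by
  fin_cases i <;> rfl

theorem chk_succ (n : ℕ) (s t u : Tr) (h : chk (n + 1) s t u = true) (a b c : Fin 5)
    (hb : bad5 a b c = true) : chk n (child s a) (child t b) (child u c) = true := by
  cases s with
  | nil => rw [child_nil]; exact chk_nil1 _ _ _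
  | leaf => rw [child_leaf]; exact chk_nil1 _ _ _
  | node s0 s1 s2 s3 s4 =>
    cases t with
    | nil => rw [child_nil]; exact chk_nil2 _ _ _
    | leaf => rw [child_leaf]; exact chk_nil2 _ _ _
    | node t0 t1 t2 t3 t4 =>
      cases u with
      | nil => rw [child_nil]; exact chk_nil3 _ _ _
      | leaf => rw [child_leaf]; exact chk_nil3 _ _ _
      | node u0 u1 u2 u3 u4 =>
        simp only [chk, Bool.and_eq_true] at h
        fin_cases a <;> fin_cases b <;> fin_cases c <;>
          first
            | exact absurd hb (by decide)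
            | (simp only [child]; tauto)

theorem chk_sound : ∀ (n : ℕ) (s t u : Tr), chk n s t u = true → ∀ x y z : Fin n → Fin 5,
    mem n s x = true → mem n t y = true → mem n u z = true →
    ¬ ∀ i, bad5 (x i) (y i) (z i) = true
  | 0, s, t, u, h, x, y, z, hx, hy, hz, _ => by
    simp only [mem] at hx hy hz
    simp [chk, hx, hy, hz] at h
  | n + 1, s, t, u, h, x, y, z, hx, hy, hz, hb => by
    simp only [mem] at hx hy hz
    exact chk_sound n _ _ _ (chk_succ n s t u h _ _ _ (hb 0)) _ _ _ hx hy hz
      (fun i => hb i.succ)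

/-- no triple of words with all columns bad -/
def NB (n : ℕ) (s t u : Tr) : Prop := ∀ x y z : Fin n → Fin 5,
    mem n s x = true → mem n t y = true → mem n u z = true →
    ¬ ∀ i, bad5 (x i) (y i) (z i) = true

theorem bad5_12 : ∀ a b c : Fin 5, bad5 a b c = bad5 b a c := by decide +kernel
theorem bad5_23 : ∀ a b c : Fin 5, bad5 a b c = bad5 a c b := by decide +kernel

theorem nb12 {n : ℕ} {s t u : Tr} (h : NB n s t u) : NB n t s u := by
  intro x y z hx hy hz hb
  exact h y x z hy hx hz fun i => by rw [bad5_12]; exact hb i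

theorem nb23 {n : ℕ} {s t u : Tr} (h : NB n s t u) : NB n s u t := by
  intro x y z hx hy hz hb
  exact h x z y hx hz hy fun i => by rw [bad5_23]; exact hb i

theorem nb_all {n : ℕ} {s t u : Tr} (h : chk n s t u = true) :
    NB n s t u ∧ NB n s u t ∧ NB n t s u ∧ NB n t u s ∧ NB n u s t ∧ NB n u t s := by
  have h0 : NB n s t u := chk_sound n s t u h
  exact ⟨h0, nb23 h0, nb12 h0, nb23 (nb12 h0), nb12 (nb23 h0), nb12 (nb23 (nb12 h0))⟩

/-- a bad triple of words is trivial -/
def chkCap : ℕ → Tr → Bool
  | 0, _ => true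
  | n + 1, t => match t with
    | node a b c d e =>
      chkCap n a && (chkCap n b && (chkCap n c && (chkCap n d && (chkCap n e &&
      (chk n a b b && (chk n a c c && (chk n a d e && (chk n b b c && (chk n b c c &&
      (chk n b c d && (chk n b c e && (chk n b d e && chk n c d e))))))))))))
    | _ => true

theorem chkCap_nil (n : ℕ) : chkCap n nil = true := by
  cases n <;> rfl

theorem chkCap_succ (n : ℕ) (t : Tr) (h : chkCap (n + 1) t = true) (a : Fin 5) :
    chkCap n (child t a) = true := by
  cases t with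
  | nil => rw [child_nil]; exact chkCap_nil n
  | leaf => rw [child_leaf]; exact chkCap_nil n
  | node t0 t1 t2 t3 t4 =>
    simp only [chkCap, Bool.and_eq_true] at h
    fin_cases a <;> simp only [child] <;> tauto

theorem nb_nil1 (n : ℕ) (t u : Tr) : NB n nil t u := chk_sound n _ _ _ (chk_nil1 n t u)

theorem chkCap_nb (n : ℕ) (t : Tr) (h : chkCap (n + 1) t = true) (a b c : Fin 5)
    (hb : bad5 a b c = true) (hne : ¬ (a = b ∧ b = c)) :
    NB n (child t a) (child t b) (child t c) := by
  cases t with
  | nil => rw [child_nil]; exact nb_nil1 _ _ _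
  | leaf => rw [child_leaf]; exact nb_nil1 _ _ _
  | node t0 t1 t2 t3 t4 =>
    simp only [chkCap, Bool.and_eq_true] at h
    obtain ⟨-, -, -, -, -, h1, h2, h3, h4, h5, h6, h7, h8, h9⟩ := h
    have k1 := nb_all h1
    have k2 := nb_all h2
    have k3 := nb_all h3
    have k4 := nb_all h4
    have k5 := nb_all h5
    have k6 := nb_all h6
    have k7 := nb_all h7
    have k8 := nb_all h8
    have k9 := nb_all h9
    fin_cases a <;> fin_cases b <;> fin_cases c <;>
      first
        | exact absurd hb (by decide)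
        | exact absurd ⟨rfl, rfl⟩ hne
        | (simp only [child]; tauto)

theorem chkCap_sound : ∀ (n : ℕ) (t : Tr), chkCap n t = true → ∀ x y z : Fin n → Fin 5,
    mem n t x = true → mem n t y = true → mem n t z = true →
    (∀ i, bad5 (x i) (y i) (z i) = true) → x = y ∧ y = z
  | 0, _, _, x, y, z, _, _, _, _ => ⟨funext fun i => i.elim0, funext fun i => i.elim0⟩
  | n + 1, t, h, x, y, z, hx, hy, hz, hb => by
    simp only [mem] at hx hy hz
    by_cases he : x 0 = y 0 ∧ y 0 = z 0
    · obtain ⟨e1, e2⟩ := he
      rw [← e1] at hy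
      rw [← e2, ← e1] at hz
      have ih := chkCap_sound n _ (chkCap_succ n t h (x 0)) _ _ _ hx hy hz
        (fun i => hb i.succ)
      constructor
      · funext i
        refine Fin.cases e1 (fun j => ?_) i
        exact congrFun ih.1 j
      · funext i
        refine Fin.cases e2 (fun j => ?_) i
        exact congrFun ih.2 j
    · exact absurd (fun i => hb i.succ) (chkCap_nb n t h _ _ _ (hb 0) he _ _ _ hx hy hz)

/-- the finite set of the words of length `n` in a trie -/
def KK (n : ℕ) (t : Tr) : Finset (Fin n → Fin 5) := Finset.univ.filter (fun u => mem n t u = true)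

theorem mem_KK {n : ℕ} {t : Tr} {u : Fin n → Fin 5} : u ∈ KK n t ↔ mem n t u = true := by
  simp [KK]

theorem size_nil (n : ℕ) : size n nil = 0 := by
  cases n <;> rfl

theorem size_succ (n : ℕ) (t : Tr) : size (n + 1) t = ∑ a : Fin 5, sz5 a * size n (child t a) := by
  rw [Fin.sum_univ_five]
  cases t <;> simp [size, child, size_nil, sz5]

theorem sum_KK : ∀ (n : ℕ) (t : Tr), ∑ u ∈ KK n t, ∏ i, sz5 (u i) = size n t
  | 0, t => by
    unfold KK
    rw [Finset.sum_filter]
    simp [mem, size]
  | n + 1, t => by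
    unfold KK
    rw [Finset.sum_filter, size_succ, ← (Fin.consEquiv (fun _ => Fin 5)).sum_comp,
      Fintype.sum_prod_type]
    refine Finset.sum_congr rfl fun a _ => ?_
    rw [← sum_KK n (child t a), Finset.mul_sum]
    unfold KK
    rw [Finset.sum_filter]
    refine Finset.sum_congr rfl fun u _ => ?_
    simp [Fin.consEquiv, mem, Fin.prod_univ_succ]

end Tr

end Pool.Agent.Helper75.CQ
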