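import Pool.Agent.Helper75.CQ.Sys3

/-!
# The set `S0` of 724 words of length 7
-/

set_option autoImplicit false

namespace Pool.Agent.Helper75.CQ.W7

open Pool.Agent.Helper75.CQ.Tr

def x0 : Tr := .node .nil .nil .nil .nil .leaf
def x1 : Tr := .node .nil x0 .nil x0 .nil
def x2 : Tr := .node .nil .nil .leaf .nil .nil
def x3 : Tr := .node x0 .nil x2 x2 .nil
def x4 : Tr := .node .nil .nil .nil x1 x3
def x5 : Tr := .node .nil .nil x1 x1 .nil
def x6 : Tr := .node .nil .nil x3 .nil .nil
def x7 : Tr := .node .nil x4 .nil x5 x6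
def x8 : Tr := .node .nil .nil x0 x0 .nil
def x9 : Tr := .node .nil .nil x2 x2 .nil
def x10 : Tr := .node .nil .nil .nil x8 x9
def x11 : Tr := .node .nil .nil x8 x8 .nil
def x12 : Tr := .node .nil .nil x9 .nil .nil
def x13 : Tr := .node .nil x10 .nil x11 x12
def x14 : Tr := .node x0 .nil .nil .nil .nil
def x15 : Tr := .node .nil .nil .nil x14 .nil
def x16 : Tr := .node .nil .nil x14 x14 .nil
def x17 : Tr := .node .nil x15 .nil x16 .nil
def x18 : Tr := .node .nil x7 .nil x13 x17
def x19 : Tr := .node .nil .nil .nil .leaf .nil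
def x20 : Tr := .node .nil .nil .leaf .leaf .nil
def x21 : Tr := .node x0 x19 x2 x20 .nil
def x22 : Tr := .node .nil x19 .nil x19 .nil
def x23 : Tr := .node .nil x21 .nil x22 .nil
def x24 : Tr := .node .nil .nil x22 x22 .nil
def x25 : Tr := .node x21 .nil .nil .nil .nil
def x26 : Tr := .node .nil x23 .nil x24 x25
def x27 : Tr := .node x0 x19 .nil x19 .nil
def x28 : Tr := .node .nil x21 .nil x27 .nil
def x29 : Tr := .node .nil x14 x22 x27 .nil
def x30 : Tr := .node .nil x19 x2 x20 .nil
def x31 : Tr := .node x30 .nil .nil .nil .nil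
def x32 : Tr := .node .nil x28 .nil x29 x31
def x33 : Tr := .node .nil x26 .nil x32 .nil
def x34 : Tr := .node .nil x0 .nil .nil x2
def x35 : Tr := .node x0 .nil x2 .nil .nil
def x36 : Tr := .node .nil .nil .nil x34 x35
def x37 : Tr := .node .nil .nil x34 x34 .nil
def x38 : Tr := .node .nil .nil x35 .nil .nil
def x39 : Tr := .node .nil x36 .nil x37 x38
def x40 : Tr := .node .nil .nil .nil x2 .nil
def x41 : Tr := .node .nil .nil .nil x40 .nil
def x42 : Tr := .node .nil .nil x40 x40 .nil
def x43 : Tr := .node .nil x41 .nil x42 .nil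
def x44 : Tr := .node .nil .nil .nil x35 .nil
def x45 : Tr := .node .nil .nil x35 x35 .nil
def x46 : Tr := .node .nil x44 .nil x45 .nil
def x47 : Tr := .node .nil .nil .nil x9 .nil
def x48 : Tr := .node .nil .nil x9 x9 .nil
def x49 : Tr := .node .nil x47 .nil x48 .nil
def x50 : Tr := .node x39 x43 x46 x49 .nil
def x51 : Tr := .node .nil x34 .nil x34 .nil
def x52 : Tr := .node x34 .nil .nil .nil .nil
def x53 : Tr := .node .nil x51 .nil x37 x52
def x54 : Tr := .node .nil x19 .nil x20 .nil
def x55 : Tr := .node .nil x54 .nil x54 .nil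
def x56 : Tr := .node .nil .nil x54 x54 .nil
def x57 : Tr := .node x54 .nil .nil .nil .nil
def x58 : Tr := .node .nil x55 .nil x56 x57
def x59 : Tr := .node .nil x35 .nil x35 .nil
def x60 : Tr := .node x35 .nil .nil .nil .nil
def x61 : Tr := .node .nil x59 .nil x45 x60
def x62 : Tr := .node .nil x21 .nil x21 .nil
def x63 : Tr := .node .nil .nil x30 x21 .nil
def x64 : Tr := .node .nil x62 .nil x63 x31
def x65 : Tr := .node x53 x58 x61 x64 .nil
def x66 : Tr := .node .nil x35 .nil .nil .nil
def x67 : Tr := .node .nil .nil x2 .nil .nil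
def x68 : Tr := .node x67 .nil .nil .nil .nil
def x69 : Tr := .node .nil x66 .nil .nil x68
def x70 : Tr := .node x69 .nil .nil .nil .nil
def x71 : Tr := .node x18 x33 x50 x65 x70
def x72 : Tr := .node .nil .leaf .nil .nil .nil
def x73 : Tr := .node .nil x72 .nil x72 .nil
def x74 : Tr := .node .leaf .nil .nil .nil .nil
def x75 : Tr := .node x72 .nil x74 x74 .nil
def x76 : Tr := .node .nil .nil .nil x73 x75
def x77 : Tr := .node .nil .nil x73 x73 .nil
def x78 : Tr := .node .nil .nil x75 .nil .nil
def x79 : Tr := .node .nil x76 .nil x77 x78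
def x80 : Tr := .node .nil .nil x72 x72 .nil
def x81 : Tr := .node .nil .nil x74 x74 .nil
def x82 : Tr := .node .nil .nil .nil x80 x81
def x83 : Tr := .node .nil .nil x80 x80 .nil
def x84 : Tr := .node .nil .nil x81 .nil .nil
def x85 : Tr := .node .nil x82 .nil x83 x84
def x86 : Tr := .node x72 .nil .nil .nil .nil
def x87 : Tr := .node .nil .nil .nil x86 .nil
def x88 : Tr := .node .nil .nil x86 x86 .nil
def x89 : Tr := .node .nil x87 .nil x88 .nil
def x90 : Tr := .node .nil x79 .nil x85 x89
def x91 : Tr := .node .nil x75 .nil .nil .nil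
def x92 : Tr := .node .nil .leaf .nil .leaf .nil
def x93 : Tr := .node .nil x92 .nil x92 .nil
def x94 : Tr := .node x93 .nil .nil .nil .nil
def x95 : Tr := .node x75 .nil .nil .nil .nil
def x96 : Tr := .node .nil x91 .nil x94 x95
def x97 : Tr := .node .nil x75 .nil x86 .nil
def x98 : Tr := .node .nil .nil x92 x92 .nil
def x99 : Tr := .node x98 x86 .nil x86 .nil
def x100 : Tr := .node x81 .nil .nil .nil .nil
def x101 : Tr := .node .nil x97 .nil x99 x100
def x102 : Tr := .node x92 .nil .nil .nil .nil
def x103 : Tr := .node x102 .nil .nil .nil .nil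
def x104 : Tr := .node .nil .nil .nil x103 .nil
def x105 : Tr := .node .nil x96 .nil x101 x104
def x106 : Tr := .node .nil x72 .nil .nil x74
def x107 : Tr := .node x72 .nil x74 .nil .nil
def x108 : Tr := .node .nil .nil .nil x106 x107
def x109 : Tr := .node .nil .nil x106 x106 .nil
def x110 : Tr := .node .nil .nil x107 .nil .nil
def x111 : Tr := .node .nil x108 .nil x109 x110
def x112 : Tr := .node .nil .nil .nil x74 .nil
def x113 : Tr := .node .nil .nil .nil x112 .nil
def x114 : Tr := .node .nil .nil x112 x112 .nil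
def x115 : Tr := .node .nil x113 .nil x114 .nil
def x116 : Tr := .node .nil .nil .nil x107 .nil
def x117 : Tr := .node .nil .nil x107 x107 .nil
def x118 : Tr := .node .nil x116 .nil x117 .nil
def x119 : Tr := .node .nil .nil .nil x81 .nil
def x120 : Tr := .node .nil .nil x81 x81 .nil
def x121 : Tr := .node .nil x119 .nil x120 .nil
def x122 : Tr := .node x111 x115 x118 x121 .nil
def x123 : Tr := .node .nil x106 .nil x106 .nil
def x124 : Tr := .node .nil x0 .nil .nil .nil
def x125 : Tr := .node x124 x106 .nil x106 .nil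
def x126 : Tr := .node .nil x123 .nil x125 .nil
def x127 : Tr := .node .nil x112 .nil x112 .nil
def x128 : Tr := .node x54 x112 .nil x112 .nil
def x129 : Tr := .node .nil x127 .nil x128 .nil
def x130 : Tr := .node .nil x107 .nil x107 .nil
def x131 : Tr := .node x67 x107 .nil x107 .nil
def x132 : Tr := .node .nil x130 .nil x131 .nil
def x133 : Tr := .node .nil x75 .nil x75 .nil
def x134 : Tr := .node .nil .nil x20 x20 .nil
def x135 : Tr := .node x134 x75 .nil x75 .nil
def x136 : Tr := .node .nil x133 .nil x135 .nil
def x137 : Tr := .node x19 .nil .nil .nil .nil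
def x138 : Tr := .node x137 .nil .nil .nil .nil
def x139 : Tr := .node .nil .nil .nil x138 .nil
def x140 : Tr := .node x126 x129 x132 x136 x139
def x141 : Tr := .node .nil x107 .nil .nil .nil
def x142 : Tr := .node x106 .nil .nil .nil .nil
def x143 : Tr := .node x107 .nil .nil .nil .nil
def x144 : Tr := .node .nil x141 .nil x142 x143
def x145 : Tr := .node x112 .nil .nil .nil .nil
def x146 : Tr := .node .nil .nil .nil x145 .nil
def x147 : Tr := .node .nil .nil .nil x143 .nil
def x148 : Tr := .node .nil .nil .nil x100 .nil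
def x149 : Tr := .node x144 x146 x147 x148 .nil
def x150 : Tr := .node x90 x105 x122 x140 x149
def x151 : Tr := .node .nil .nil .nil x0 x19
def x152 : Tr := .node x0 x19 x2 x2 .nil
def x153 : Tr := .node .nil .nil .nil x151 x152
def x154 : Tr := .node .nil x19 .nil .nil .nil
def x155 : Tr := .node .nil .nil .nil x154 .nil
def x156 : Tr := .node .nil .nil .nil x19 .nil
def x157 : Tr := .node .nil .nil x21 x156 .nil
def x158 : Tr := .node x153 x155 x157 x24 .nil
def x159 : Tr := .node .nil .nil x19 x19 .nil
def x160 : Tr := .node .nil .nil x134 x159 .nil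
def x161 : Tr := .node .nil .nil x159 x159 .nil
def x162 : Tr := .node x10 .nil x160 x161 .nil
def x163 : Tr := .node .nil .nil x19 .nil .nil
def x164 : Tr := .node .nil .nil .nil x163 x137
def x165 : Tr := .node .nil .nil .nil x137 .nil
def x166 : Tr := .node .nil .nil x137 .nil .nil
def x167 : Tr := .node .nil .nil x137 x137 .nil
def x168 : Tr := .node x164 x165 x166 x167 .nil
def x169 : Tr := .node .nil x158 .nil x162 x168
def x170 : Tr := .node .nil x21 .nil x156 .nil
def x171 : Tr := .node x170 .nil x25 .nil .nil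
def x172 : Tr := .node .nil x134 .nil x159 .nil
def x173 : Tr := .node .nil x137 .nil x137 .nil
def x174 : Tr := .node x134 .nil .nil .nil .nil
def x175 : Tr := .node x172 x173 x174 x173 .nil
def x176 : Tr := .node .nil x137 .nil .nil .nil
def x177 : Tr := .node x176 .nil x138 .nil .nil
def x178 : Tr := .node .nil x171 .nil x175 x177
def x179 : Tr := .node .nil .nil .nil .nil x20
def x180 : Tr := .node x0 x19 x2 .nil .nil
def x181 : Tr := .node .nil .nil .nil x179 x180
def x182 : Tr := .node .nil .nil .nil x20 .nil
def x183 : Tr := .node .nil .nil x21 x182 .nil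
def x184 : Tr := .node x181 x155 x183 x56 .nil
def x185 : Tr := .node x41 .nil .nil .nil .nil
def x186 : Tr := .node .nil .nil x20 .nil .nil
def x187 : Tr := .node .nil .nil .nil x186 x137
def x188 : Tr := .node x187 x165 x166 x167 .nil
def x189 : Tr := .node x47 .nil .nil .nil .nil
def x190 : Tr := .node x184 x185 x188 x189 .nil
def x191 : Tr := .node .nil x179 .nil x179 .nil
def x192 : Tr := .node .nil x154 .nil x154 .nil
def x193 : Tr := .node x179 .nil x182 x182 .nil
def x194 : Tr := .node x154 .nil .nil .nil .nil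
def x195 : Tr := .node x191 x192 x193 x56 x194
def x196 : Tr := .node .nil x182 .nil x182 .nil
def x197 : Tr := .node x182 .nil .nil .nil .nil
def x198 : Tr := .node x196 .nil x197 .nil .nil
def x199 : Tr := .node .nil x186 .nil x186 .nil
def x200 : Tr := .node x186 .nil .nil .nil .nil
def x201 : Tr := .node x199 x173 x200 x167 .nil
def x202 : Tr := .node .nil x134 .nil x134 .nil
def x203 : Tr := .node x202 x173 x174 x173 .nil
def x204 : Tr := .node x195 x198 x201 x203 .nil
def x205 : Tr := .node .nil x180 .nil .nil .nil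
def x206 : Tr := .node x180 .nil .nil .nil .nil
def x207 : Tr := .node x205 .nil x206 .nil .nil
def x208 : Tr := .node x207 .nil x177 .nil .nil
def x209 : Tr := .node x169 x178 x190 x204 x208
def x210 : Tr := .node .nil .nil .nil .nil x92
def x211 : Tr := .node .nil x92 .nil .nil .nil
def x212 : Tr := .node .nil .nil .nil x210 x211
def x213 : Tr := .node .nil .nil .nil x211 .nil
def x214 : Tr := .node .nil .nil .nil x92 .nil
def x215 : Tr := .node .nil .nil x93 x214 .nil
def x216 : Tr := .node .nil .nil x93 x93 .nil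
def x217 : Tr := .node x212 x213 x215 x216 .nil
def x218 : Tr := .node .nil .nil x98 x98 .nil
def x219 : Tr := .node .nil .nil x218 x218 .nil
def x220 : Tr := .node .nil .nil x92 .nil .nil
def x221 : Tr := .node .nil .nil .nil x220 x102
def x222 : Tr := .node .nil .nil .nil x102 .nil
def x223 : Tr := .node .nil .nil x102 .nil .nil
def x224 : Tr := .node .nil .nil x102 x102 .nil
def x225 : Tr := .node x221 x222 x223 x224 .nil
def x226 : Tr := .node .nil x217 .nil x219 x225
def x227 : Tr := .node .nil x93 .nil x214 .nil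
def x228 : Tr := .node x227 .nil x94 x94 .nil
def x229 : Tr := .node .nil x98 .nil x98 .nil
def x230 : Tr := .node .nil x102 .nil x102 .nil
def x231 : Tr := .node x98 .nil .nil .nil .nil
def x232 : Tr := .node x98 x102 .nil x102 .nil
def x233 : Tr := .node x229 x230 x231 x232 .nil
def x234 : Tr := .node .nil x102 .nil .nil .nil
def x235 : Tr := .node x234 .nil x103 x103 .nil
def x236 : Tr := .node .nil x228 .nil x233 x235
def x237 : Tr := .node x92 .nil x74 x74 .nil
def x238 : Tr := .node .nil .nil x237 x81 .nil
def x239 : Tr := .node .nil .nil x237 x237 .nil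
def x240 : Tr := .node x221 x222 x238 x239 .nil
def x241 : Tr := .node .nil .nil x120 x120 .nil
def x242 : Tr := .node x217 .nil x240 x241 .nil
def x243 : Tr := .node .nil x210 .nil x210 .nil
def x244 : Tr := .node .nil x211 .nil x211 .nil
def x245 : Tr := .node x179 .nil x214 x214 .nil
def x246 : Tr := .node .nil x72 .nil .nil .nil
def x247 : Tr := .node .nil x19 .nil x92 .nil
def x248 : Tr := .node x124 x246 x247 x93 .nil
def x249 : Tr := .node x243 x244 x245 x248 x194
def x250 : Tr := .node .nil x214 .nil x214 .nil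
def x251 : Tr := .node x250 .nil x197 x57 .nil
def x252 : Tr := .node .nil x220 .nil x220 .nil
def x253 : Tr := .node x186 x81 .nil x81 .nil
def x254 : Tr := .node x67 x75 x137 x237 .nil
def x255 : Tr := .node x252 x230 x253 x254 .nil
def x256 : Tr := .node x134 x81 .nil x81 .nil
def x257 : Tr := .node x134 x237 .nil x237 .nil
def x258 : Tr := .node x229 x230 x256 x257 .nil
def x259 : Tr := .node x249 x251 x255 x258 x139
def x260 : Tr := .node .nil x211 .nil .nil .nil
def x261 : Tr := .node x211 .nil .nil .nil .nil
def x262 : Tr := .node x246 .nil .nil .nil .nil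
def x263 : Tr := .node x260 .nil x261 x262 .nil
def x264 : Tr := .node x237 .nil .nil .nil .nil
def x265 : Tr := .node x234 .nil x264 x95 .nil
def x266 : Tr := .node .nil .nil x100 x100 .nil
def x267 : Tr := .node x263 .nil x265 x266 .nil
def x268 : Tr := .node x226 x236 x242 x259 x267
def x269 : Tr := .node .nil .nil .nil x72 .nil
def x270 : Tr := .node .nil .nil .nil x269 x75
def x271 : Tr := .node x270 .nil x78 .nil .nil
def x272 : Tr := .node x82 .nil x84 .nil .nil
def x273 : Tr := .node .nil x271 .nil x272 .nil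
def x274 : Tr := .node x91 .nil x95 .nil .nil
def x275 : Tr := .node .nil x81 .nil .nil .nil
def x276 : Tr := .node x275 .nil x100 .nil .nil
def x277 : Tr := .node .nil x274 .nil x276 .nil
def x278 : Tr := .node .nil .nil .nil .nil x74
def x279 : Tr := .node .nil .nil .nil x278 x107
def x280 : Tr := .node .nil .nil x75 x112 .nil
def x281 : Tr := .node x279 .nil x280 x114 .nil
def x282 : Tr := .node x113 .nil .nil .nil .nil
def x283 : Tr := .node .nil .nil x74 .nil .nil
def x284 : Tr := .node .nil .nil .nil x283 .nil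
def x285 : Tr := .node x284 .nil .nil .nil .nil
def x286 : Tr := .node x119 .nil .nil .nil .nil
def x287 : Tr := .node x281 x282 x285 x286 .nil
def x288 : Tr := .node .nil x278 .nil x278 .nil
def x289 : Tr := .node x288 .nil x114 x113 .nil
def x290 : Tr := .node x127 .nil .nil .nil .nil
def x291 : Tr := .node .nil x283 .nil x283 .nil
def x292 : Tr := .node x291 .nil .nil .nil .nil
def x293 : Tr := .node .nil x81 .nil x81 .nil
def x294 : Tr := .node x293 .nil .nil .nil .nil
def x295 : Tr := .node x289 x290 x292 x294 .nil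
def x296 : Tr := .node x141 .nil x143 .nil .nil
def x297 : Tr := .node x296 .nil .nil .nil .nil
def x298 : Tr := .node x273 x277 x287 x295 x297
def x299 : Tr := .node x71 x150 x209 x268 x298

/-- the trie of the 724 words -/
def T : Tr := x299

/-- number of vectors of `S0` -/
def b0 : ℕ := 181066845388800

theorem ok : okT 7 T b0 = true := by decide +kernel

end Pool.Agent.Helper75.CQ.W7
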